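import Mathlib

/-!
Row TLa (Tsen-Lang for quadratic forms): the parameter count.
-/

set_option autoImplicit false

namespace MP2619.TL

open Filter Topology

theorem TLa_ratio (r i : ℕ) :
    Tendsto (fun s : ℕ => ((2 * s + r + 1 + i : ℕ) : ℝ) / ((s + 1 + i : ℕ) : ℝ)) atTop (𝓝 2) := by
  have h1 : ∀ s : ℕ, ((2 * s + r + 1 + i : ℕ) : ℝ) / ((s + 1 + i : ℕ) : ℝ) =
      2 + ((r : ℝ) - 1 - i) / ((s + (1 + i) : ℕ) : ℝ) := by
    intro s
    have h2 : ((s + (1 + i) : ℕ) : ℝ) ≠ 0 := by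
      have : 0 < s + (1 + i) := by omega
      exact_mod_cast this.ne'
    have h3 : ((s + 1 + i : ℕ) : ℝ) = ((s + (1 + i) : ℕ) : ℝ) := by
      rw [add_assoc]
    rw [h3]
    field_simp
    push_cast
    ring
  simp_rw [h1]
  have h4 : Tendsto (fun s : ℕ => ((r : ℝ) - 1 - i) / ((s + (1 + i) : ℕ) : ℝ)) atTop (𝓝 0) := by
    have h5 : Tendsto (fun s : ℕ => ((r : ℝ) - 1 - i) / (s : ℝ)) atTop (𝓝 0) :=
      tendsto_const_div_atTop_nhds_zero_nat _
    exact (tendsto_add_atTop_iff_nat (f := fun s : ℕ => ((r : ℝ) - 1 - i) / (s : ℝ)) (1 + i)).2 h5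
  simpa using h4.const_add 2

theorem exists_count (D n r g : ℕ) (hg : 0 < g) (hn : 2 ^ D < n) :
    ∃ s : ℕ, g * (2 * s + r + D).choose D < n * g * (s + D).choose D := by
  have h1 : Tendsto (fun s : ℕ => ∏ i ∈ Finset.range D,
      ((2 * s + r + 1 + i : ℕ) : ℝ) / ((s + 1 + i : ℕ) : ℝ)) atTop
      (𝓝 (∏ _i ∈ Finset.range D, (2 : ℝ))) :=
    tendsto_finsetProd _ fun i _ => TLa_ratio r i
  rw [Finset.prod_const, Finset.card_range] at h1
  have h2 : (2 : ℝ) ^ D < n := by exact_mod_cast hn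
  obtain ⟨s, hs⟩ := (h1.eventually (gt_mem_nhds h2)).exists
  refine ⟨s, ?_⟩
  rw [Finset.prod_div_distrib] at hs
  have h3 : ∀ a : ℕ, (∏ i ∈ Finset.range D, ((a + 1 + i : ℕ) : ℝ)) =
      ((D.factorial * (a + D).choose D : ℕ) : ℝ) := by
    intro a
    rw [← Nat.ascFactorial_eq_factorial_mul_choose, Nat.ascFactorial_eq_prod_range]
    push_cast
    rfl
  rw [h3, h3, div_lt_iff₀] at hs
  · have h4 : D.factorial * (2 * s + r + D).choose D < n * (D.factorial * (s + D).choose D) := by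
      exact_mod_cast hs
    have h5 : D.factorial * (2 * s + r + D).choose D <
        D.factorial * (n * (s + D).choose D) := by
      calc _ < n * (D.factorial * (s + D).choose D) := h4
        _ = D.factorial * (n * (s + D).choose D) := by ring
    have h6 := Nat.lt_of_mul_lt_mul_left h5
    calc g * (2 * s + r + D).choose D < g * (n * (s + D).choose D) :=
          Nat.mul_lt_mul_of_pos_left h6 hg
      _ = n * g * (s + D).choose D := by ring
  · have h7 : 0 < D.factorial * (s + D).choose D :=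
      Nat.mul_pos (Nat.factorial_pos D) (Nat.choose_pos (by omega))
    exact_mod_cast h7

end MP2619.TL
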