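import Mathlib
import Pool.Agent.Lib.MP_2619d0_ag.TOdd

/-!
Row TLb (Tsen-Lang for quadratic forms): common zeros of quadratic forms over `ℂ`.
-/

set_option autoImplicit false

namespace MP2619.TL

open MvPolynomial

/-- Reindex `ι` by `Fin (M+1)` (`Fintype.equivFin`, `rename`). If there is no common zero then
`ℂ[X_0, …, X_M]` is algebraic over the subalgebra generated by the forms
(`MP2619.T.st_isAlgebraic` with `e = 2`), hence its transcendence degree `M + 1` is at most the number of
forms (`Algebra.IsAlgebraic.trdeg_le_cardinalMk`). -/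
theorem exists_common_zero {ι κ : Type} [Fintype ι] [Fintype κ]
    (hcard : Fintype.card κ < Fintype.card ι) (f : κ → MvPolynomial ι ℂ)
    (hf : ∀ k, (f k).IsHomogeneous 2) : ∃ p : ι → ℂ, p ≠ 0 ∧ ∀ k, eval p (f k) = 0 := by
  classical
  obtain ⟨M, hM⟩ : ∃ M, Fintype.card ι = M + 1 := ⟨Fintype.card ι - 1, by omega⟩
  let e : ι ≃ Fin (M + 1) := Fintype.equivFinOfCardEq hM
  by_contra hcon
  have hbp : ∀ w : Fin (M+1) → ℂ, (∀ k, eval w (rename e (f k)) = 0) → w = 0 := by
    intro w hw
    by_contra hw0
    refine hcon ⟨w ∘ e, ?_, fun k => ?_⟩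
    · intro h
      apply hw0
      funext i
      have := congrFun h (e.symm i)
      simpa using this
    · have := hw k
      rwa [eval_rename] at this
  have halg := MP2619.T.st_isAlgebraic (by norm_num : 1 ≤ 2) (fun k => rename e (f k))
    (fun k => (hf k).rename_isHomogeneous) hbp
  have h1 := Algebra.IsAlgebraic.trdeg_le_cardinalMk ℂ (Set.range fun k => rename e (f k))
  rw [MvPolynomial.trdeg_of_isDomain, Cardinal.lift_id, Cardinal.mk_fin] at h1
  have h2 : Cardinal.mk (Set.range fun k => rename e (f k)) ≤ Cardinal.mk κ := Cardinal.mk_range_le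
  have h3 := h1.trans h2
  rw [Cardinal.mk_fintype] at h3
  have h4 : M + 1 ≤ Fintype.card κ := by exact_mod_cast h3
  omega

end MP2619.TL
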