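import Mathlib
import Pool.Agent.Lib.MP_2619d0_ag.Q2.TLa
import Pool.Agent.Lib.MP_2619d0_ag.Q2.TLb

/-!
Row TLc (Tsen-Lang for quadratic forms): systems of quadratic forms over a polynomial ring.
-/

set_option autoImplicit false

namespace MP2619.TL

open MvPolynomial

/-- The exponents of degree at most `s`. -/
def TLcMon (D s : ℕ) : Finset (Fin D →₀ ℕ) :=
  (Finset.range (s + 1)).biUnion fun j => Finset.finsuppAntidiag Finset.univ j

theorem TLc_mem {D s : ℕ} {d : Fin D →₀ ℕ} : d ∈ TLcMon D s ↔ d.degree ≤ s := by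
  simp only [TLcMon, Finset.mem_biUnion, Finset.mem_range, Finset.mem_finsuppAntidiag]
  constructor
  · rintro ⟨j, hj, h, -⟩
    rw [Finsupp.degree_eq_sum, h]
    omega
  · intro h
    exact ⟨d.degree, by omega, (Finsupp.degree_eq_sum d).symm, Finset.subset_univ _⟩

theorem TLc_card (D s : ℕ) : (TLcMon D s).card = (s + D).choose D := by
  rw [TLcMon, Finset.card_biUnion]
  · induction s with
    | zero => simp
    | succ s ih =>
      rw [Finset.sum_range_succ, ih, Finset.card_finsuppAntidiag_nat_eq_choose,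
        Finset.card_univ, Fintype.card_fin]
      have h1 : D + (s + 1) - 1 = s + D := by omega
      have h0 : (s + D).choose D = (s + D).choose s := Nat.choose_symm_add.symm
      rw [h1, h0, show s + 1 + D = (s + D) + 1 by ring]
      have h2 : (s + D + 1).choose D = (s + D + 1).choose (s + 1) := by
        rw [← Nat.choose_symm (show D ≤ s + D + 1 by omega)]
        congr 1
        omega
      rw [h2, Nat.choose_succ_succ]
  · intro i _ j _ hij
    rw [Function.onFun, Finset.disjoint_left]
    intro d hd hd'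
    rw [Finset.mem_finsuppAntidiag] at hd hd'
    exact hij (hd.1.symm.trans hd'.1)

section Hom

variable {U : Type} {D : ℕ}

/-- All coefficients are homogeneous of degree `n`. -/
def TLcHom (n : ℕ) (P : MvPolynomial (Fin D) (MvPolynomial U ℂ)) : Prop :=
  ∀ m, (coeff m P).IsHomogeneous n

theorem TLc_hom_sum {α : Type*} {n : ℕ} (t : Finset α)
    (P : α → MvPolynomial (Fin D) (MvPolynomial U ℂ)) (h : ∀ x ∈ t, TLcHom n (P x)) :
    TLcHom n (∑ x ∈ t, P x) := by
  intro m
  rw [coeff_sum]
  exact IsHomogeneous.sum _ _ _ fun x hx => h x hx m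

theorem TLc_hom_mul {a b : ℕ} {P Q : MvPolynomial (Fin D) (MvPolynomial U ℂ)}
    (hP : TLcHom a P) (hQ : TLcHom b Q) : TLcHom (a + b) (P * Q) := by
  intro m
  rw [coeff_mul]
  exact IsHomogeneous.sum _ _ _ fun x _ => (hP x.1).mul (hQ x.2)

theorem TLc_hom_one : TLcHom 0 (1 : MvPolynomial (Fin D) (MvPolynomial U ℂ)) := by
  intro m
  rw [coeff_one]
  split_ifs
  · exact isHomogeneous_one _ _
  · exact isHomogeneous_zero _ _ _

theorem TLc_hom_pow {a : ℕ} {P : MvPolynomial (Fin D) (MvPolynomial U ℂ)}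
    (hP : TLcHom a P) (e : ℕ) : TLcHom (a * e) (P ^ e) := by
  induction e with
  | zero =>
    rw [pow_zero, mul_zero]
    exact TLc_hom_one
  | succ e ih =>
    rw [pow_succ, mul_add, mul_one]
    exact TLc_hom_mul ih hP

theorem TLc_hom_prod {α : Type*} (t : Finset α) (e : α → ℕ)
    (P : α → MvPolynomial (Fin D) (MvPolynomial U ℂ)) (h : ∀ x ∈ t, TLcHom (e x) (P x)) :
    TLcHom (∑ x ∈ t, e x) (∏ x ∈ t, P x) := by
  classical
  induction t using Finset.induction_on with
  | empty =>
    rw [Finset.sum_empty, Finset.prod_empty]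
    exact TLc_hom_one
  | insert x t hx ih =>
    rw [Finset.sum_insert hx, Finset.prod_insert hx]
    exact TLc_hom_mul (h x (Finset.mem_insert_self _ _))
      (ih fun y hy => h y (Finset.mem_insert_of_mem hy))

theorem TLc_hom_map (q : MvPolynomial (Fin D) ℂ) :
    TLcHom 0 (map (C : ℂ →+* MvPolynomial U ℂ) q) := by
  intro m
  rw [coeff_map]
  exact isHomogeneous_C _ _

end Hom

section Gen

variable {ι : Type} {D s : ℕ}

/-- The generic polynomials of degree at most `s`. -/
noncomputable def TLcA (ι : Type) (D s : ℕ) (i : ι) :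
    MvPolynomial (Fin D) (MvPolynomial (ι × TLcMon D s) ℂ) :=
  ∑ d : TLcMon D s, monomial d.1 (X (i, d))

theorem TLc_hom_A (i : ι) : TLcHom 1 (TLcA ι D s i) := by
  classical
  refine TLc_hom_sum _ _ fun d _ m => ?_
  rw [coeff_monomial]
  split_ifs
  · exact isHomogeneous_X _ _
  · exact isHomogeneous_zero _ _ _

/-- The specialisation of the generic polynomials. -/
noncomputable def TLca (p : ι × TLcMon D s → ℂ) (i : ι) : MvPolynomial (Fin D) ℂ :=
  map (eval p) (TLcA ι D s i)

theorem TLca_eq (p : ι × TLcMon D s → ℂ) (i : ι) :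
    TLca p i = ∑ d : TLcMon D s, monomial d.1 (p (i, d)) := by
  rw [TLca, TLcA, map_sum]
  refine Finset.sum_congr rfl fun d _ => ?_
  rw [map_monomial, eval_X]

theorem TLca_degree (p : ι × TLcMon D s → ℂ) (i : ι) : (TLca p i).totalDegree ≤ s := by
  rw [TLca_eq]
  refine totalDegree_finsetSum_le fun d _ => ?_
  refine (totalDegree_monomial_le _ _).trans ?_
  have h := TLc_mem.1 d.2
  exact h

theorem TLca_ne (p : ι × TLcMon D s → ℂ) (hp : p ≠ 0) : TLca p ≠ 0 := by
  classical
  intro h
  apply hp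
  funext x
  have h1 := congrFun h x.1
  rw [TLca_eq] at h1
  have h2 := congrArg (coeff x.2.1) h1
  rw [coeff_sum, Pi.zero_apply, coeff_zero, Finset.sum_eq_single x.2] at h2
  · rw [coeff_monomial, if_pos rfl] at h2
    exact h2
  · intro d _ hd
    rw [coeff_monomial, if_neg]
    intro h3
    exact hd (Subtype.ext h3)
  · intro h3
    exact absurd (Finset.mem_univ _) h3

/-- The value at the generic point. -/
noncomputable def TLcF (s : ℕ) (f : MvPolynomial ι (MvPolynomial (Fin D) ℂ)) :
    MvPolynomial (Fin D) (MvPolynomial (ι × TLcMon D s) ℂ) :=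
  eval₂ (map (C : ℂ →+* MvPolynomial (ι × TLcMon D s) ℂ)) (TLcA ι D s) f

theorem TLc_hom_F [Fintype ι] (f : MvPolynomial ι (MvPolynomial (Fin D) ℂ))
    (hf : f.IsHomogeneous 2) : TLcHom 2 (TLcF s f) := by
  rw [TLcF, eval₂_eq']
  refine TLc_hom_sum _ _ fun e he => ?_
  have h1 := TLc_hom_mul (TLc_hom_map (U := ι × TLcMon D s) (f.coeff e))
    (TLc_hom_prod Finset.univ (fun i => 1 * e i) (fun i => TLcA ι D s i ^ e i)
      (fun i _ => TLc_hom_pow (TLc_hom_A i) (e i)))
  have h2 : 0 + ∑ i, 1 * e i = 2 := by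
    have h3 := hf (mem_support_iff.1 he)
    rw [Finsupp.weight_apply, Finsupp.sum_fintype _ _ (by simp)] at h3
    simpa using h3
  rw [h2] at h1
  exact h1

theorem TLc_spec (p : ι × TLcMon D s → ℂ) (f : MvPolynomial ι (MvPolynomial (Fin D) ℂ)) :
    map (eval p) (TLcF s f) = eval (TLca p) f := by
  rw [TLcF, eval₂_comp_left (map (eval p))]
  have h1 : (map (eval p)).comp (map (C : ℂ →+* MvPolynomial (ι × TLcMon D s) ℂ)) =
      RingHom.id (MvPolynomial (Fin D) ℂ) := by
    apply MvPolynomial.ringHom_ext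
    · intro c
      simp
    · intro i
      simp
  rw [h1]
  rfl

theorem TLc_eval_degree [Fintype ι] (a : ι → MvPolynomial (Fin D) ℂ) (r : ℕ)
    (ha : ∀ i, (a i).totalDegree ≤ s) (f : MvPolynomial ι (MvPolynomial (Fin D) ℂ))
    (hf : f.IsHomogeneous 2) (hr : ∀ e, (f.coeff e).totalDegree ≤ r) :
    (eval a f).totalDegree ≤ 2 * s + r := by
  rw [eval_eq']
  refine totalDegree_finsetSum_le fun e he => ?_
  refine (totalDegree_mul _ _).trans ?_
  have h1 : (∏ i, a i ^ e i).totalDegree ≤ 2 * s := by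
    refine (totalDegree_finsetProd _ _).trans ?_
    have h2 : ∑ i, (a i ^ e i).totalDegree ≤ ∑ i, e i * s :=
      Finset.sum_le_sum fun i _ => (totalDegree_pow _ _).trans (Nat.mul_le_mul_left _ (ha i))
    refine h2.trans ?_
    rw [← Finset.sum_mul]
    have h3 := hf (mem_support_iff.1 he)
    rw [Finsupp.weight_apply, Finsupp.sum_fintype _ _ (by simp)] at h3
    have h4 : ∑ i, e i = 2 := by simpa using h3
    rw [h4]
  have h5 := hr e
  omega

end Gen

/-- `g = card κ` quadratic forms in `card ι > g 2^D` variables over `R = ℂ[T_1, …, T_D]` have a common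
nontrivial zero in `R^ι`. Here the number of variables is `n g` with `n > 2^D`.
Let `r` bound the total degrees of all coefficients of all forms and choose `s` by `exists_count`. Let
`Mon s` be the set of exponents of degree at most `s` (`Finsupp`, it is finite with
`(s + D).choose D` elements; e.g. `Finset.sum_antidiagonal`/`Sym`: `Finsupp.degree`, cardinality lemma in
QHilb.lean or `MvPolynomial` restrictTotalDegree rank). Unknowns `c : ι × Mon s → ℂ` (there are
`n g (s + D).choose D`), `a_i = ∑_d c (i, d) T^d ∈ R`. The polynomial `f_k(a) ∈ R` has total degree at most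
`2 s + r`, its coefficients are quadratic forms over `ℂ` in the unknowns `c` (make this precise by evaluating
in `MvPolynomial (ι × Mon s) ℂ` ⊗ `R`, i.e. `MvPolynomial (Fin D) (MvPolynomial (ι × Mon s) ℂ)`), their number
is `g (2 s + r + D).choose D`. Apply `exists_common_zero`. -/
theorem exists_zero_poly {D n : ℕ} (hn : 2 ^ D < n) {ι κ : Type} [Fintype ι] [Fintype κ] [Nonempty κ]
    (hcard : Fintype.card ι = n * Fintype.card κ)
    (f : κ → MvPolynomial ι (MvPolynomial (Fin D) ℂ)) (hf : ∀ k, (f k).IsHomogeneous 2) :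
    ∃ a : ι → MvPolynomial (Fin D) ℂ, a ≠ 0 ∧ ∀ k, eval a (f k) = 0 := by
  classical
  obtain ⟨r, hr⟩ : ∃ r : ℕ, ∀ k e, ((f k).coeff e).totalDegree ≤ r := by
    refine ⟨Finset.univ.sup fun k => (f k).support.sup fun e => ((f k).coeff e).totalDegree,
      fun k e => ?_⟩
    by_cases he : e ∈ (f k).support
    · refine le_trans ?_ (Finset.le_sup (f := fun k => (f k).support.sup fun e =>
        ((f k).coeff e).totalDegree) (Finset.mem_univ k))
      exact Finset.le_sup (f := fun e => ((f k).coeff e).totalDegree) he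
    · rw [notMem_support_iff.1 he, totalDegree_zero]
      exact Nat.zero_le _
  obtain ⟨s, hs⟩ := exists_count D n r (Fintype.card κ) Fintype.card_pos hn
  obtain ⟨p, hp, hpz⟩ := exists_common_zero (ι := ι × TLcMon D s)
    (κ := κ × TLcMon D (2 * s + r)) (by
      rw [Fintype.card_prod, Fintype.card_prod, Fintype.card_coe, Fintype.card_coe, TLc_card,
        TLc_card, hcard]
      exact hs) (fun x => coeff x.2.1 (TLcF s (f x.1)))
    (fun x => TLc_hom_F (f x.1) (hf x.1) x.2.1)
  refine ⟨TLca p, TLca_ne p hp, fun k => ?_⟩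
  ext m
  rw [coeff_zero]
  by_cases hm : m ∈ TLcMon D (2 * s + r)
  · have h1 := hpz (k, ⟨m, hm⟩)
    rw [← TLc_spec, coeff_map]
    exact h1
  · rw [TLc_mem, not_le] at hm
    apply coeff_eq_zero_of_totalDegree_lt
    have h2 := TLc_eval_degree (TLca p) r (TLca_degree p) (f k) (hf k) (hr k)
    have h3 : ∑ i ∈ m.support, m i = m.degree := rfl
    rw [h3]
    omega

end MP2619.TL
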