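import Mathlib
import Pool.Agent.Lib.MP_2619d0_ag.Q2.TLc

/-!
Row TLd (Tsen-Lang for quadratic forms): finite extensions of `ℂ(T_1, …, T_D)`.
-/

set_option autoImplicit false

namespace MP2619.TL

open MvPolynomial

universe u

private lemma TLd_eval_aeval {σ τ E : Type*} [CommRing E] (g : σ → MvPolynomial τ E)
    (φ : MvPolynomial σ E) (a : τ → E) :
    eval a (aeval g φ) = eval (fun j => eval a (g j)) φ := by
  induction φ using MvPolynomial.induction_on with
  | C c => simp [MvPolynomial.algebraMap_eq]
  | add p q hp hq => rw [map_add, map_add, map_add, hp, hq]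
  | mul_X p i hp => rw [map_mul, map_mul, map_mul, hp, aeval_X, eval_X]

private lemma TLd_homog {n : ℕ} {E ι : Type*} [CommRing E] [Fintype ι] (ω : ι → E)
    (φ : MvPolynomial (Fin n) E) (hφ : φ.IsHomogeneous 2) :
    (aeval (fun j : Fin n => ∑ i : ι, (C (ω i) * X (j, i) : MvPolynomial (Fin n × ι) E))
      φ).IsHomogeneous 2 := by
  have h1 : ∀ j : Fin n, (∑ i : ι, (C (ω i) * X (j, i) : MvPolynomial (Fin n × ι) E)).IsHomogeneous
      1 := by
    intro j
    apply IsHomogeneous.sum
    intro i _
    have h2 := (isHomogeneous_C (Fin n × ι) (ω i)).mul (isHomogeneous_X E (j, i))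
    rwa [zero_add] at h2
  have h3 := hφ.aeval (R := E) (n := 1) _ h1
  rwa [one_mul] at h3

/-- `K` is the fraction field of `R = ℂ[T_1, …, T_D]` and `E / K` is finite. Choose a basis
`ω : κ → E` of `E / K` (`Module.finBasis`, `κ = Fin g`, `g > 0`). For `a : Fin n × κ → K` put
`p_j = ∑_i a (j, i) ω_i`; then `φ(p) = ∑_k Ψ_k(a) ω_k` where `Ψ_k ∈ K[Fin n × κ]` is homogeneous of degree
two (`Ψ_k` = the `k`-th coordinate of `aeval (fun j => ∑_i C (ω_i) * X (j, i)) φ`, apply
`ω.repr` to the coefficients; homogeneity: `IsHomogeneous.aeval`). Multiply all `Ψ_k` by a common denominator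
`h ∈ R`, `h ≠ 0` of all their coefficients (`IsLocalization.exist_integer_multiples_of_finset`), so they come
from `f_k : MvPolynomial (Fin n × κ) R`. Apply `exists_zero_poly` (`card (Fin n × κ) = n * card κ`); a
nontrivial zero `a` gives `p ≠ 0` because `ω` is linearly independent. -/
theorem exists_zero_finite {D n : ℕ} (hn : 2 ^ D < n) {K E : Type u} [Field K] [Field E]
    [Algebra (MvPolynomial (Fin D) ℂ) K] [IsFractionRing (MvPolynomial (Fin D) ℂ) K] [Algebra K E]
    [FiniteDimensional K E] (φ : MvPolynomial (Fin n) E) (hφ : φ.IsHomogeneous 2) :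
    ∃ p : Fin n → E, p ≠ 0 ∧ eval p φ = 0 := by
  classical
  let R := MvPolynomial (Fin D) ℂ
  let ω := Module.finBasis K E
  have hg : 0 < Module.finrank K E := Module.finrank_pos
  have : Nonempty (Fin (Module.finrank K E)) := ⟨⟨0, hg⟩⟩
  let Φ : MvPolynomial (Fin n × Fin (Module.finrank K E)) E :=
    aeval (fun j : Fin n => ∑ i, C (ω i) * X (j, i)) φ
  have hΦ : Φ.IsHomogeneous 2 := TLd_homog (fun i => ω i) φ hφ
  -- common denominator
  obtain ⟨b, hb⟩ := IsLocalization.exist_integer_multiples (nonZeroDivisors R)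
    (Φ.support ×ˢ (Finset.univ : Finset (Fin (Module.finrank K E))))
    (fun x => ω.repr (coeff x.1 Φ) x.2 : _ → K)
  have hc : ∀ m ∈ Φ.support, ∀ k, ∃ c : R, algebraMap R K c =
      algebraMap R K (b : R) * ω.repr (coeff m Φ) k := by
    intro m hm k
    obtain ⟨c, hc⟩ := hb (m, k) (Finset.mem_product.mpr ⟨hm, Finset.mem_univ _⟩)
    exact ⟨c, by rw [hc, Algebra.smul_def]⟩
  choose! c hc using hc
  let f : Fin (Module.finrank K E) → MvPolynomial (Fin n × Fin (Module.finrank K E)) R :=
    fun k => ∑ m ∈ Φ.support, monomial m (c m k)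
  have hf : ∀ k, (f k).IsHomogeneous 2 := by
    intro k
    apply IsHomogeneous.sum
    intro m hm
    apply isHomogeneous_monomial
    by_contra hne
    exact mem_support_iff.mp hm (hΦ.coeff_eq_zero hne)
  obtain ⟨a, ha0, ha⟩ := exists_zero_poly hn (ι := Fin n × Fin (Module.finrank K E))
    (κ := Fin (Module.finrank K E)) (by rw [Fintype.card_prod, Fintype.card_fin]) f hf
  let a' : Fin n × Fin (Module.finrank K E) → E := fun x =>
    algebraMap K E (algebraMap R K (a x))
  refine ⟨fun j => ∑ i, ω i * a' (j, i), ?_, ?_⟩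
  · intro hp
    apply ha0
    funext ⟨j, i⟩
    have h1 : ∑ i, (algebraMap R K (a (j, i))) • ω i = 0 := by
      have h2 := congrFun hp j
      simp only [Pi.zero_apply] at h2
      rw [← h2]
      refine Finset.sum_congr rfl fun i _ => ?_
      rw [Algebra.smul_def, mul_comm]
    have h3 := Fintype.linearIndependent_iff.mp ω.linearIndependent _ h1 i
    have h4 : Function.Injective (algebraMap R K) := IsFractionRing.injective R K
    exact h4 (by rw [h3, Pi.zero_apply, map_zero])
  · have h1 : eval (fun j => ∑ i, ω i * a' (j, i)) φ = eval a' Φ := by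
      rw [TLd_eval_aeval]
      congr 2
      funext j
      rw [map_sum]
      refine Finset.sum_congr rfl fun i _ => ?_
      rw [map_mul, eval_C, eval_X]
    rw [h1]
    have hbK : algebraMap R K (b : R) ≠ 0 := fun h =>
      nonZeroDivisors.ne_zero b.2 (IsFractionRing.injective R K (by rw [h, map_zero]))
    have hbE : algebraMap K E (algebraMap R K (b : R)) ≠ 0 := fun h =>
      hbK ((algebraMap K E).injective (by rw [h, map_zero]))
    apply (mul_eq_zero.mp (?_ : algebraMap K E (algebraMap R K (b : R)) * eval a' Φ = 0)).resolve_left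
      hbE
    have h2 : ∀ m ∈ Φ.support, algebraMap K E (algebraMap R K (b : R)) * coeff m Φ =
        ∑ k, algebraMap K E (algebraMap R K (c m k)) * ω k := by
      intro m hm
      have h3 : coeff m Φ = ∑ k, ω.repr (coeff m Φ) k • ω k := (ω.sum_repr (coeff m Φ)).symm
      conv_lhs => rw [h3]
      rw [Finset.mul_sum]
      refine Finset.sum_congr rfl fun k _ => ?_
      rw [hc m hm k, map_mul, Algebra.smul_def, mul_assoc]
    have h4 : ∀ m : (Fin n × Fin (Module.finrank K E)) →₀ ℕ, ∏ i ∈ m.support, a' i ^ m i =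
        algebraMap K E (algebraMap R K (∏ i ∈ m.support, a i ^ m i)) := by
      intro m
      rw [map_prod, map_prod]
      refine Finset.prod_congr rfl fun i _ => ?_
      rw [map_pow, map_pow]
    have h5 : ∀ k, ∑ m ∈ Φ.support, c m k * ∏ i ∈ m.support, a i ^ m i = 0 := by
      intro k
      have h6 := ha k
      change eval a (∑ m ∈ Φ.support, monomial m (c m k)) = 0 at h6
      rw [map_sum] at h6
      rw [← h6]
      refine Finset.sum_congr rfl fun m _ => ?_
      rw [eval_monomial, Finsupp.prod]
    rw [eval_eq, Finset.mul_sum]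
    calc ∑ m ∈ Φ.support, algebraMap K E (algebraMap R K (b : R)) *
          (coeff m Φ * ∏ i ∈ m.support, a' i ^ m i)
        = ∑ m ∈ Φ.support, ∑ k, ω k * algebraMap K E (algebraMap R K
            (c m k * ∏ i ∈ m.support, a i ^ m i)) := by
          refine Finset.sum_congr rfl fun m hm => ?_
          rw [← mul_assoc, h2 m hm, h4 m, Finset.sum_mul]
          refine Finset.sum_congr rfl fun k _ => ?_
          rw [map_mul, map_mul]
          ring
      _ = ∑ k, ω k * algebraMap K E (algebraMap R K
            (∑ m ∈ Φ.support, c m k * ∏ i ∈ m.support, a i ^ m i)) := by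
          rw [Finset.sum_comm]
          refine Finset.sum_congr rfl fun k _ => ?_
          rw [map_sum, map_sum, Finset.mul_sum]
      _ = 0 := by
          apply Finset.sum_eq_zero
          intro k _
          rw [h5 k, map_zero, map_zero, mul_zero]

end MP2619.TL
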