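import Mathlib
import Pool.Agent.Lib.MP_2619d0_ag.Q2.TLd

/-!
Row TLe (Tsen-Lang for quadratic forms): fields of transcendence degree at most `D`.
-/

set_option autoImplicit false

namespace MP2619.TL

open MvPolynomial

universe u

/-- The case of a field `E` with a transcendence basis indexed by `Fin D`. -/
theorem TLe_basis {D n : ℕ} (hn : 2 ^ D < n) {E : Type u} [Field E] [Algebra ℂ E]
    (y : Fin D → E) (hy : IsTranscendenceBasis ℂ y) (φ : MvPolynomial (Fin n) E)
    (hφ : φ.IsHomogeneous 2) :
    ∃ p : Fin n → E, p ≠ 0 ∧ eval p φ = 0 := by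
  classical
  -- the rational function field inside `E`
  let K : IntermediateField ℂ E := IntermediateField.adjoin ℂ (Set.range y)
  let algRK : Algebra (MvPolynomial (Fin D) ℂ) K :=
    ((hy.1.aevalEquivField : FractionRing (MvPolynomial (Fin D) ℂ) ≃ₐ[ℂ] K).toRingEquiv.toRingHom.comp
      (algebraMap (MvPolynomial (Fin D) ℂ) (FractionRing (MvPolynomial (Fin D) ℂ)))).toAlgebra
  have e : FractionRing (MvPolynomial (Fin D) ℂ) ≃ₐ[MvPolynomial (Fin D) ℂ] K :=
    AlgEquiv.ofRingEquiv
      (f := (hy.1.aevalEquivField : FractionRing (MvPolynomial (Fin D) ℂ) ≃ₐ[ℂ] K).toRingEquiv)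
      (fun r => rfl)
  have : IsFractionRing (MvPolynomial (Fin D) ℂ) K :=
    IsLocalization.isLocalization_of_algEquiv _ e
  have : Algebra.IsAlgebraic K E := hy.isAlgebraic_field
  -- the field generated by the coefficients
  let E0 : IntermediateField K E := IntermediateField.adjoin K (φ.coeffs : Set E)
  have : FiniteDimensional K E0 := by
    have : Finite ((φ.coeffs : Set E)) := (Finset.finite_toSet _).to_subtype
    exact IntermediateField.finiteDimensional_adjoin
      (fun x _ => (Algebra.IsAlgebraic.isAlgebraic x).isIntegral)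
  obtain ⟨ψ, hψ⟩ : φ ∈ Set.range (MvPolynomial.map (algebraMap E0 E)) := by
    rw [mem_range_map_iff_coeffs_subset]
    intro c hc
    exact ⟨⟨c, IntermediateField.subset_adjoin K _ hc⟩, rfl⟩
  have hψh : ψ.IsHomogeneous 2 := by
    apply MvPolynomial.IsHomogeneous.of_map (f := algebraMap E0 E) (algebraMap E0 E).injective
    rw [hψ]; exact hφ
  obtain ⟨p, hp0, hp⟩ := exists_zero_finite (K := K) (E := E0) hn ψ hψh
  refine ⟨fun i => algebraMap E0 E (p i), ?_, ?_⟩
  · intro h
    apply hp0
    funext i
    have := congrFun h i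
    simp only [Pi.zero_apply] at this ⊢
    exact (map_eq_zero_iff _ (algebraMap E0 E).injective).1 this
  · rw [← hψ, eval_map]
    have h2 := eval₂_comp_left (algebraMap E0 E) (RingHom.id E0) p ψ
    rw [RingHom.comp_id] at h2
    have h3 : eval₂ (algebraMap E0 E) (fun i => algebraMap E0 E (p i)) ψ
        = algebraMap E0 E (eval p ψ) := by
      rw [eval, coe_eval₂Hom, h2]
      rfl
    rw [h3, hp, map_zero]

/-- Choose a transcendence basis of `E / ℂ` (`exists_isTranscendenceBasis'`); it has at most `D`
elements, say `D' ≤ D`, indexed by `Fin D'`: `x : Fin D' → E` algebraically independent and `E` algebraic over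
`ℂ[x]`. Then `2 ^ D' < n`. The ring homomorphism `R = ℂ[T_1, …, T_{D'}] → E` is injective, let
`K = FractionRing R` (or `IntermediateField.adjoin ℂ (Set.range x)`, whose `IsFractionRing` structure over `R`
comes from `AlgebraicIndependent.aevalEquiv…`); `E` is algebraic over `K`. The finitely many coefficients of
`φ` generate a finite extension `E0` of `K` inside `E` (`IntermediateField.finiteDimensional_adjoin`),
`φ` comes from `MvPolynomial (Fin n) E0` (`MvPolynomial.mem_range_map_iff_coeffs_subset` or
`toSubring`…); apply `exists_zero_finite` to `E0`. -/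
theorem exists_zero {D n : ℕ} (hn : 2 ^ D < n) {E : Type u} [Field E] [Algebra ℂ E]
    (hD : Algebra.trdeg ℂ E ≤ D) (φ : MvPolynomial (Fin n) E) (hφ : φ.IsHomogeneous 2) :
    ∃ p : Fin n → E, p ≠ 0 ∧ eval p φ = 0 := by
  classical
  obtain ⟨ι, x, hx⟩ := exists_isTranscendenceBasis' ℂ E
  have h1 : Cardinal.mk ι ≤ D := by rw [hx.cardinalMk_eq_trdeg]; exact hD
  have : Finite ι := by
    rw [← Cardinal.lt_aleph0_iff_finite]
    exact lt_of_le_of_lt h1 (Cardinal.natCast_lt_aleph0)
  have h2 : Nat.card ι ≤ D := by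
    rw [← Nat.cast_card (α := ι)] at h1
    exact_mod_cast h1
  let e : Fin (Nat.card ι) ≃ ι := (Finite.equivFin ι).symm
  have hy : IsTranscendenceBasis ℂ (x ∘ e) := (isTranscendenceBasis_equiv e).2 hx
  refine TLe_basis (D := Nat.card ι) ?_ (x ∘ e) hy φ hφ
  exact lt_of_le_of_lt (Nat.pow_le_pow_right (by norm_num) h2) hn

end MP2619.TL
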