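import Mathlib

/-!
Row TR1: transcendence degrees.
-/

set_option autoImplicit false

namespace MP2619.TL

open MvPolynomial

universe u

theorem TR1_scale {n d : ℕ} {L : Type u} [Field L] [Algebra ℂ L] {F : MvPolynomial (Fin n) ℂ}
    (hF : F.IsHomogeneous d) (c : L) (z : Fin n → L) :
    aeval (fun i => c * z i) F = c ^ d * aeval z F := by
  rw [aeval_def, aeval_def, eval₂_eq', eval₂_eq', Finset.mul_sum]
  refine Finset.sum_congr rfl fun e he => ?_
  have h1 : ∑ i, e i = d := by
    have h2 := hF (mem_support_iff.mp he)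
    rw [Finsupp.weight_apply, Finsupp.sum_fintype _ _ (fun i => by simp)] at h2
    simpa using h2
  have h3 : ∏ i, (c * z i) ^ e i = c ^ d * ∏ i, z i ^ e i := by
    simp only [mul_pow]
    rw [Finset.prod_mul_distrib, Finset.prod_pow_eq_pow_sum, h1]
  rw [h3]
  ring

theorem TR1_dehom {m d : ℕ} {L : Type u} [Field L] [Algebra ℂ L]
    {F : MvPolynomial (Fin (m + 2)) ℂ} (hF : F.IsHomogeneous d) (x : Fin (m + 2) → L)
    (hx0 : x 0 ≠ 0) :
    aeval x F = x 0 ^ d * aeval (fun j : Fin (m + 1) => x j.succ / x 0)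
      (aeval (Fin.cons 1 X : Fin (m + 2) → MvPolynomial (Fin (m + 1)) ℂ) F) := by
  have h1 : aeval (fun j : Fin (m + 1) => x j.succ / x 0)
      (aeval (Fin.cons 1 X : Fin (m + 2) → MvPolynomial (Fin (m + 1)) ℂ) F) =
      aeval (fun i => x i / x 0) F := by
    rw [← AlgHom.comp_apply, comp_aeval]
    congr 2
    funext i
    refine Fin.cases ?_ (fun j => ?_) i
    · rw [Fin.cons_zero, map_one, div_self hx0]
    · rw [Fin.cons_succ, aeval_X]
  rw [h1, ← TR1_scale hF]
  congr 2
  funext i
  rw [mul_div_cancel₀ _ hx0]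

theorem TR1_ne_zero {m d : ℕ} {F : MvPolynomial (Fin (m + 2)) ℂ} (hF : F.IsHomogeneous d)
    (hF0 : F ≠ 0) :
    aeval (Fin.cons 1 X : Fin (m + 2) → MvPolynomial (Fin (m + 1)) ℂ) F ≠ 0 := by
  intro h
  apply hF0
  let K := FractionRing (MvPolynomial (Fin (m + 2)) ℂ)
  have hinj : Function.Injective (algebraMap (MvPolynomial (Fin (m + 2)) ℂ) K) :=
    IsFractionRing.injective _ _
  have hx0 : algebraMap (MvPolynomial (Fin (m + 2)) ℂ) K (X 0) ≠ 0 := by
    intro h0
    exact X_ne_zero (R := ℂ) (0 : Fin (m + 2)) (hinj (by rw [h0, map_zero]))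
  have h1 := TR1_dehom hF (fun i => algebraMap (MvPolynomial (Fin (m + 2)) ℂ) K (X i)) hx0
  rw [h, map_zero, mul_zero] at h1
  apply hinj
  rw [map_zero, ← h1]
  have h2 : (algebraMap (MvPolynomial (Fin (m + 2)) ℂ) K) F =
      IsScalarTower.toAlgHom ℂ (MvPolynomial (Fin (m + 2)) ℂ) K F := rfl
  rw [h2]
  conv_lhs => rw [← aeval_X_left_apply F]
  rw [← AlgHom.comp_apply, comp_aeval]
  rfl

theorem TR1_top {k : Type} {L : Type u} [Field k] [Field L] [Algebra k L] {n : ℕ} (y : Fin n → L) :
    Algebra.adjoin k (Set.range fun j : Fin n =>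
      (⟨y j, Algebra.subset_adjoin ⟨j, rfl⟩⟩ : Algebra.adjoin k (Set.range y))) = ⊤ := by
  rw [eq_top_iff]
  rintro ⟨z, hz⟩ _
  have h3 : (Algebra.adjoin k (Set.range fun j : Fin n =>
      (⟨y j, Algebra.subset_adjoin ⟨j, rfl⟩⟩ : Algebra.adjoin k (Set.range y)))).map
        (Algebra.adjoin k (Set.range y)).val = Algebra.adjoin k (Set.range y) := by
    rw [AlgHom.map_adjoin]
    congr 1
    ext w
    constructor
    · rintro ⟨_, ⟨j, rfl⟩, rfl⟩
      exact ⟨j, rfl⟩
    · rintro ⟨j, rfl⟩
      exact ⟨_, ⟨j, rfl⟩, rfl⟩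
  have h4 := hz
  rw [← h3] at h4
  obtain ⟨z', hz', hzz⟩ := h4
  have : z' = ⟨z, hz⟩ := Subtype.ext hzz
  rw [← this]
  exact hz'

open scoped IntermediateField.algebraAdjoinAdjoin in
theorem TR1_trdeg {k : Type} {L : Type u} [Field k] [Field L] [Algebra k L] {n : ℕ} (y : Fin (n + 1) → L)
    (g : MvPolynomial (Fin (n + 1)) k) (hg0 : g ≠ 0) (hg : aeval y g = 0) :
    Algebra.trdeg k (IntermediateField.adjoin k (Set.range y)) ≤ n := by
  have h2 := trdeg_add_eq k (Algebra.adjoin k (Set.range y))
    (A := IntermediateField.adjoin k (Set.range y))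
  have h3 : Algebra.trdeg (Algebra.adjoin k (Set.range y))
      (IntermediateField.adjoin k (Set.range y)) = 0 := by
    rw [trdeg_eq_zero_iff]
    infer_instance
  rw [h3, add_zero] at h2
  rw [← h2]
  by_contra hcon
  rw [not_le] at hcon
  set y' : Fin (n + 1) → Algebra.adjoin k (Set.range y) :=
    fun j => ⟨y j, Algebra.subset_adjoin ⟨j, rfl⟩⟩ with hy'
  have hle : ((n + 1 : ℕ) : Cardinal.{u}) ≤ Algebra.trdeg k (Algebra.adjoin k (Set.range y)) := by
    have h := Order.succ_le_of_lt hcon
    rw [Cardinal.succ_natCast, ← Nat.cast_succ] at h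
    exact h
  have halg : Algebra.IsAlgebraic (Algebra.adjoin k (Set.range y'))
      (Algebra.adjoin k (Set.range y)) := by
    refine ⟨fun a => ?_⟩
    have ha : a ∈ Algebra.adjoin k (Set.range y') := by
      rw [hy', TR1_top y]
      trivial
    exact isAlgebraic_algebraMap (⟨a, ha⟩ : Algebra.adjoin k (Set.range y'))
  have hb := Algebra.IsAlgebraic.isTranscendenceBasis_of_lift_le_trdeg_of_finite k y' (by
    rw [Cardinal.mk_fin, Cardinal.lift_natCast]
    rw [Cardinal.lift_uzero]
    exact hle)
  have hind : AlgebraicIndependent k y' := hb.1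
  apply hg0
  rw [algebraicIndependent_iff] at hind
  apply hind
  apply Subtype.val_injective
  have h5 : ((aeval y' g : Algebra.adjoin k (Set.range y)) : L) = aeval y g := by
    have h6 := congrArg (fun φ : MvPolynomial (Fin (n + 1)) k →ₐ[k] L => φ g)
      (comp_aeval (R := k) y' (Algebra.adjoin k (Set.range y)).val)
    exact h6
  rw [h5, hg]
  rfl

/-- The field generated by the ratios of the coordinates of a point of a hypersurface `F = 0` in
`ℙ^{m+1}` whose first coordinate is not zero has transcendence degree at most `m` if no power of `X 0` is a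
multiple of `F` (it is enough that `F` does not divide any power of `X 0`).
The field is generated by the `m + 1` elements `y_j = x_{j+1} / x_0`; they are algebraically dependent: the
dehomogenisation `g = aeval (Fin.cons 1 X) F ∈ ℂ[Y_1, …, Y_{m+1}]` satisfies `g(y) = F(x) / x_0^d = 0`, and
`g ≠ 0` because otherwise `F` would be divisible by … (here simply: `F` homogeneous and `F ≠ 0` imply `g ≠ 0`,
since `F` is recovered from `g`, e.g. the monomials of `F` are determined by their exponents of
`X_1, …, X_{m+1}`). Take a transcendence basis contained in `{y_j}` (`exists_isTranscendenceBasis_subset` or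
`IsTranscendenceBasis` inside the generating set); if it had `m + 1` elements it would be everything
(`x` injective), contradiction. -/
theorem trdeg_ratio_le {m d : ℕ} {L : Type u} [Field L] [Algebra ℂ L]
    {F : MvPolynomial (Fin (m + 2)) ℂ} (hF : F.IsHomogeneous d) (hF0 : F ≠ 0) (x : Fin (m + 2) → L)
    (hx0 : x 0 ≠ 0) (hx : aeval x F = 0) :
    Algebra.trdeg ℂ (IntermediateField.adjoin ℂ {z : L | ∃ i j, z = x i / x j}) ≤ m := by
  set y : Fin (m + 1) → L := fun j => x j.succ / x 0 with hy
  have hK : IntermediateField.adjoin ℂ {z : L | ∃ i j, z = x i / x j} =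
      IntermediateField.adjoin ℂ (Set.range y) := by
    have h0 : ∀ i, x i / x 0 ∈ IntermediateField.adjoin ℂ (Set.range y) := by
      intro i
      refine Fin.cases ?_ (fun j => ?_) i
      · rw [div_self hx0]
        exact one_mem _
      · exact IntermediateField.subset_adjoin _ _ ⟨j, rfl⟩
    refine le_antisymm ?_ ?_
    · rw [IntermediateField.adjoin_le_iff]
      rintro z ⟨i, j, rfl⟩
      by_cases hj : x j = 0
      · rw [hj, div_zero]
        exact zero_mem _
      · have h1 : x i / x j = (x i / x 0) / (x j / x 0) := by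
          field_simp
        rw [h1]
        exact div_mem (h0 i) (h0 j)
    · rw [IntermediateField.adjoin_le_iff]
      rintro _ ⟨j, rfl⟩
      exact IntermediateField.subset_adjoin _ _ ⟨j.succ, 0, rfl⟩
  rw [hK]
  refine TR1_trdeg y (aeval (Fin.cons 1 X : Fin (m + 2) → MvPolynomial (Fin (m + 1)) ℂ) F)
    (TR1_ne_zero hF hF0) ?_
  have h1 := TR1_dehom hF x hx0
  rw [hx] at h1
  rcases mul_eq_zero.mp h1.symm with h | h
  · exact absurd h (pow_ne_zero d hx0)
  · exact h

end MP2619.TL
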