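import Mathlib

/-!
Row TR2: transcendence degrees.
-/

set_option autoImplicit false

namespace MP2619.TL

open MvPolynomial

universe u

open scoped IntermediateField.algebraAdjoinAdjoin in
private theorem TR2_aux {k L : Type u} [Field k] [Field L] [Algebra k L] (S : Set L) :
    Algebra.trdeg k (IntermediateField.adjoin k S) ≤ Cardinal.mk S := by
  have h1 : Algebra.trdeg k (Algebra.adjoin k S) ≤ Cardinal.mk S := by
    have h2 : Function.Surjective (MvPolynomial.aeval (fun s : S =>
        (⟨s.1, Algebra.subset_adjoin s.2⟩ : Algebra.adjoin k S)) :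
          MvPolynomial S k →ₐ[k] Algebra.adjoin k S) := by
      rw [← AlgHom.range_eq_top, ← Algebra.adjoin_range_eq_range_aeval, eq_top_iff]
      rintro ⟨y, hy⟩ _
      have h3 : (Algebra.adjoin k (Set.range fun s : S =>
        (⟨s.1, Algebra.subset_adjoin s.2⟩ : Algebra.adjoin k S))).map
          (Algebra.adjoin k S).val = Algebra.adjoin k S := by
        rw [AlgHom.map_adjoin]
        congr 1
        ext z
        constructor
        · rintro ⟨_, ⟨s, rfl⟩, rfl⟩
          exact s.2
        · intro hz
          exact ⟨_, ⟨⟨z, hz⟩, rfl⟩, rfl⟩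
      have h4 := hy
      rw [← h3] at h4
      obtain ⟨y', hy', hyy⟩ := h4
      have : y' = ⟨y, hy⟩ := Subtype.ext hyy
      rw [← this]
      exact hy'
    have h3 := trdeg_le_of_surjective _ h2
    rwa [MvPolynomial.trdeg_of_isDomain, Cardinal.lift_id] at h3
  have h2 := trdeg_add_eq k (Algebra.adjoin k S) (A := IntermediateField.adjoin k S)
  have h3 : Algebra.trdeg (Algebra.adjoin k S) (IntermediateField.adjoin k S) = 0 := by
    rw [trdeg_eq_zero_iff]
    infer_instance
  rw [h3, add_zero] at h2
  rw [← h2]
  exact h1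

/-- A field generated by `n` elements has transcendence degree at most `n`. (For `Type` this is
`MP2619.T.trdeg_adjoin_le` in TReduce.lean.) -/
theorem trdeg_adjoin_fin_le {k L : Type u} [Field k] [Field L] [Algebra k L] {n : ℕ} (y : Fin n → L) :
    Algebra.trdeg k (IntermediateField.adjoin k (Set.range y)) ≤ n := by
  refine (TR2_aux (Set.range y)).trans ?_
  have h1 : Cardinal.lift.{0} (Cardinal.mk (Set.range y)) ≤ Cardinal.lift.{u} (Cardinal.mk (Fin n)) :=
    Cardinal.mk_range_le_lift
  simpa using h1

end MP2619.TL
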