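import Mathlib

/-!
Row TR3: transcendence degrees.
-/

set_option autoImplicit false

namespace MP2619.TL

open MvPolynomial

universe u

/-- Evaluation of a form at a point scaled by `c`. -/
theorem TR3_aeval_scale {E L : Type u} [Field E] [Field L] [Algebra E L] {σ : Type*}
    (c : L) (x y : σ → L) (hxy : ∀ i, y i = c * x i) {d : ℕ} {g : MvPolynomial σ E}
    (hg : g.IsHomogeneous d) : aeval y g = c ^ d * aeval x g := by
  rw [aeval_def, aeval_def, eval₂_eq, eval₂_eq, Finset.mul_sum]
  refine Finset.sum_congr rfl fun e he => ?_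
  have h1 : (∏ i ∈ e.support, y i ^ e i) = c ^ d * ∏ i ∈ e.support, x i ^ e i := by
    have h2 : d = ∑ i ∈ e.support, e i := hg.degree_eq_sum_deg_support he
    rw [h2, ← Finset.prod_pow_eq_pow_sum, ← Finset.prod_mul_distrib]
    refine Finset.prod_congr rfl fun i _ => ?_
    rw [hxy, mul_pow]
  rw [h1]
  ring

/-- A generic point of `ℙ^{n-1}` over `E` (no form over `E` vanishes at `p`): the `n - 1` ratios are
algebraically independent over `E`, so `n - 1 ≤ trdeg_E L`. Write `n = k + 1`. First `p 0 ≠ 0` (the form
`X 0`). For `g ∈ E[Y_1, …, Y_k]` with `g(p_1/p_0, …) = 0` the homogenisation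
`G = ∑_e (g_e) X_0^{D - |e|} X^e` (`D = totalDegree g`) is a form with `G(p) = 0`, so `G = 0`, so `g = 0`. -/
theorem le_trdeg_of_generic {E L : Type u} [Field E] [Field L] [Algebra E L] {k : ℕ}
    (p : Fin (k + 1) → L)
    (hp : ∀ (d : ℕ) (G : MvPolynomial (Fin (k + 1)) E), G.IsHomogeneous d → aeval p G = 0 → G = 0) :
    (k : Cardinal) ≤ Algebra.trdeg E L := by
  have hp0 : p 0 ≠ 0 := by
    intro h0
    have h := hp 1 (X 0) (isHomogeneous_X E 0) (by rw [aeval_X]; exact h0)
    exact X_ne_zero 0 h
  have hind : AlgebraicIndependent E (fun i : Fin k => p i.succ / p 0) := by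
    rw [algebraicIndependent_iff]
    intro g hg
    set D : ℕ := g.totalDegree with hD
    set G : MvPolynomial (Fin (k + 1)) E :=
      ∑ j ∈ Finset.range (D + 1), X 0 ^ (D - j) * rename Fin.succ (homogeneousComponent j g) with hG
    have hGhom : G.IsHomogeneous D := by
      refine IsHomogeneous.sum _ _ _ fun j hj => ?_
      have hj' : j ≤ D := by
        have := Finset.mem_range.mp hj
        omega
      have h1 := (isHomogeneous_X_pow (R := E) (0 : Fin (k + 1)) (D - j)).mul
        ((homogeneousComponent_isHomogeneous j g).rename_isHomogeneous (f := Fin.succ))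
      rwa [Nat.sub_add_cancel hj'] at h1
    have hGp : aeval p G = 0 := by
      have h1 : aeval p G = p 0 ^ D * aeval (fun i : Fin k => p i.succ / p 0) g := by
        conv_rhs => rw [← sum_homogeneousComponent g]
        rw [hG, map_sum, map_sum, Finset.mul_sum]
        refine Finset.sum_congr rfl fun j hj => ?_
        have hj' : j ≤ D := by
          have := Finset.mem_range.mp hj
          omega
        rw [map_mul, map_pow, aeval_X, aeval_rename,
          TR3_aeval_scale (p 0) (fun i : Fin k => p i.succ / p 0) (p ∘ Fin.succ)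
            (fun i => by simp only [Function.comp_apply]; field_simp)
            (homogeneousComponent_isHomogeneous j g), ← mul_assoc, ← pow_add,
          Nat.sub_add_cancel hj']
      rw [h1, hg, mul_zero]
    have hG0 : G = 0 := hp D G hGhom hGp
    have h2 : aeval (Fin.cons 1 X : Fin (k + 1) → MvPolynomial (Fin k) E) G = g := by
      conv_rhs => rw [← sum_homogeneousComponent g]
      rw [hG, map_sum]
      refine Finset.sum_congr rfl fun j hj => ?_
      rw [map_mul, map_pow, aeval_X, aeval_rename, Fin.cons_zero, one_pow, one_mul]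
      have h3 : ((Fin.cons 1 X : Fin (k + 1) → MvPolynomial (Fin k) E) ∘ Fin.succ) = X := by
        funext i
        simp
      rw [h3, aeval_X_left_apply]
    rw [← h2, hG0, map_zero]
  have h := hind.lift_cardinalMk_le_trdeg
  simpa using h

end MP2619.TL
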